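import Mathlib

/-!
A doubly transitive lattice-ordered group of boundedly supported order automorphisms of a chain
in which every strictly positive element is the join of two disjoint strictly positive elements.

Construction: `T 0 = ℚ`, `T (n+1)` is an ultrapower of `T n`; an automorphism `f` of `T n` extends
to its ultrapower `f*`, which has a proper invariant cut separating two moved points.
The chain is the direct limit, the group consists of the bounded limits of the `f, f*, f**, ...`.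
-/

namespace Pool.Agent.Results.MP_31a5b6_al.NoPrime

open Filter

section Basic

variable {α : Type} [LinearOrder α]

/-- Pointwise maximum of two order automorphisms. -/
def supIso (f g : α ≃o α) : α ≃o α where
  toFun t := max (f t) (g t)
  invFun t := min (f.symm t) (g.symm t)
  left_inv t := by
    rcases le_total (f t) (g t) with h | h
    · simp only [max_eq_right h, OrderIso.symm_apply_apply]
      apply min_eq_right
      rwa [OrderIso.le_symm_apply]
    · simp only [max_eq_left h, OrderIso.symm_apply_apply]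
      apply min_eq_left
      rwa [OrderIso.le_symm_apply]
  right_inv t := by
    rcases le_total (f.symm t) (g.symm t) with h | h
    · simp only [min_eq_left h, OrderIso.apply_symm_apply]
      apply max_eq_left
      rwa [← OrderIso.le_symm_apply]
    · simp only [min_eq_right h, OrderIso.apply_symm_apply]
      apply max_eq_right
      rwa [← OrderIso.le_symm_apply]
  map_rel_iff' := by
    intro a b
    have : StrictMono (fun t => max (f t) (g t)) := fun x y h =>
      max_lt_max (f.strictMono h) (g.strictMono h)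
    exact this.le_iff_le

theorem supIso_apply (f g : α ≃o α) (t : α) : supIso f g t = max (f t) (g t) := rfl

theorem infIso_apply (f g : α ≃o α) (t : α) : (supIso f⁻¹ g⁻¹)⁻¹ t = min (f t) (g t) := rfl

/-- Double transitivity by boundedly supported automorphisms. -/
def TwoTrans (α : Type) [LinearOrder α] : Prop :=
  ∀ r₁ r₂ s₁ s₂ : α, r₁ < r₂ → s₁ < s₂ → ∃ (f : α ≃o α) (a b : α),
    f r₁ = s₁ ∧ f r₂ = s₂ ∧ ∀ s, (s < a ∨ b < s) → f s = s

/-- `f₁` and `f₂` are complementary restrictions of `f`. -/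
def Compl (f₁ f₂ f : α ≃o α) : Prop :=
  ∀ s, (f₁ s = s ∧ f₂ s = f s) ∨ (f₁ s = f s ∧ f₂ s = s)

theorem exists_compl (F : α ≃o α) (C : Set α) (hC : IsLowerSet C) (hF : ∀ s, F s ∈ C ↔ s ∈ C) :
    ∃ f₁ f₂ : α ≃o α, (∀ s ∈ C, f₁ s = F s ∧ f₂ s = s) ∧ (∀ s ∉ C, f₁ s = s ∧ f₂ s = F s) := by
  classical
  have hlt : ∀ x y, x ∈ C → y ∉ C → x < y := by
    intro x y hx hy
    by_contra h
    exact hy (hC (not_lt.1 h) hx)
  have hmono : StrictMono (fun s => if s ∈ C then F s else s) := by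
    intro x y hxy
    by_cases hx : x ∈ C <;> by_cases hy : y ∈ C <;> simp only [hx, hy, if_true, if_false]
    · exact F.strictMono hxy
    · exact hlt _ _ ((hF x).2 hx) hy
    · exact absurd (hC hxy.le hy) hx
    · exact hxy
  have hsurj : Function.Surjective (fun s => if s ∈ C then F s else s) := by
    intro y
    by_cases hy : y ∈ C
    · refine ⟨F.symm y, ?_⟩
      have : F.symm y ∈ C := by rw [← hF]; simpa using hy
      simp [this]
    · exact ⟨y, by simp [hy]⟩
  let f₁ := hmono.orderIsoOfSurjective _ hsurj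
  have h1 : ∀ s, f₁ s = if s ∈ C then F s else s := fun s => rfl
  refine ⟨f₁, f₁.symm.trans F, ?_, ?_⟩
  · intro s hs
    refine ⟨by simp [h1, hs], ?_⟩
    have h2 : F.symm s ∈ C := by rw [← hF]; simpa using hs
    have : f₁.symm s = F.symm s := by
      rw [OrderIso.symm_apply_eq, h1]; simp [h2]
    simp [this]
  · intro s hs
    refine ⟨by simp [h1, hs], ?_⟩
    have : f₁.symm s = s := by
      rw [OrderIso.symm_apply_eq, h1]; simp [hs]
    simp [this]

end Basic

section Rat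

/-- The affine automorphism `t ↦ a + c (t - a)` of `ℚ`. -/
noncomputable def aff (a c : ℚ) (hc : 0 < c) : ℚ ≃o ℚ :=
  StrictMono.orderIsoOfSurjective (fun t => a + c * (t - a))
    (fun x y h => by simp only; nlinarith)
    (fun y => ⟨a + (y - a) / c, by field_simp; ring⟩)

theorem aff_apply (a c : ℚ) (hc : 0 < c) (t : ℚ) : aff a c hc t = a + c * (t - a) := rfl

theorem move_up (a b r s : ℚ) (har : a < r) (hrs : r ≤ s) (hsb : s < b) :
    ∃ f : ℚ ≃o ℚ, f r = s ∧ ∀ t, (t ≤ a ∨ b ≤ t) → f t = t := by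
  have h1 : 0 < r - a := by linarith
  have h2 : 0 < b - r := by linarith
  have hl : 0 < (s - a) / (r - a) := div_pos (by linarith) h1
  have hm : 0 < (b - s) / (b - r) := div_pos (by linarith) h2
  have hl1 : 1 ≤ (s - a) / (r - a) := by rw [le_div_iff₀ h1]; linarith
  have hm1 : (b - s) / (b - r) ≤ 1 := by rw [div_le_iff₀ h2]; linarith
  refine ⟨supIso 1 ((supIso (aff a _ hl)⁻¹ (aff b _ hm)⁻¹)⁻¹), ?_, ?_⟩
  · rw [supIso_apply, infIso_apply, aff_apply, aff_apply]
    have e1 : a + (s - a) / (r - a) * (r - a) = s := by field_simp; ring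
    have e2 : b + (b - s) / (b - r) * (r - b) = s := by field_simp; ring
    rw [e1, e2, min_self]
    exact max_eq_right hrs
  · intro t ht
    rw [supIso_apply, infIso_apply, aff_apply, aff_apply]
    apply max_eq_left
    change _ ≤ t
    rcases ht with ht | ht
    · refine (min_le_left _ _).trans ?_
      nlinarith
    · refine (min_le_right _ _).trans ?_
      nlinarith

theorem move (a b r s : ℚ) (har : a < r) (hrb : r < b) (has : a < s) (hsb : s < b) :
    ∃ f : ℚ ≃o ℚ, f r = s ∧ ∀ t, (t ≤ a ∨ b ≤ t) → f t = t := by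
  rcases le_total r s with h | h
  · exact move_up a b r s har h hsb
  · obtain ⟨f, h1, h2⟩ := move_up a b s r has h hrb
    refine ⟨f.symm, by rw [← h1]; simp, fun t ht => ?_⟩
    rw [OrderIso.symm_apply_eq, h2 t ht]

theorem twoTrans_rat : TwoTrans ℚ := by
  intro r₁ r₂ s₁ s₂ hr hs
  set a := min r₁ s₁ - 1 with ha
  set b := max r₂ s₂ + 1 with hb
  have a1 : a < r₁ := by have := min_le_left r₁ s₁; linarith
  have a2 : a < s₁ := by have := min_le_right r₁ s₁; linarith
  have b1 : r₂ < b := by have := le_max_left r₂ s₂; linarith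
  have b2 : s₂ < b := by have := le_max_right r₂ s₂; linarith
  obtain ⟨f, f1, f2⟩ := move a b r₁ s₁ a1 (hr.trans b1) a2 (hs.trans b2)
  have c1 : s₁ < f r₂ := by rw [← f1]; exact f.strictMono hr
  have c2 : f r₂ < b := by rw [← f2 b (Or.inr le_rfl)]; exact f.strictMono b1
  obtain ⟨g, g1, g2⟩ := move s₁ b (f r₂) s₂ c1 c2 hs b2
  refine ⟨f.trans g, a, b, ?_, ?_, ?_⟩
  · simp [f1, g2 s₁ (Or.inl le_rfl)]
  · simp [g1]
  · intro s hs'
    rcases hs' with h | h
    · simp [f2 s (Or.inl h.le), g2 s (Or.inl (h.trans a2).le)]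
    · simp [f2 s (Or.inr h.le), g2 s (Or.inr h.le)]

end Rat

section Ultra

variable {α : Type} [LinearOrder α]

/-- The ultrapower. -/
abbrev Up (α : Type) : Type := Germ (hyperfilter ℕ : Filter ℕ) α

/-- The automorphism of the ultrapower induced by a sequence of automorphisms. -/
noncomputable def seqIso (f : ℕ → α ≃o α) : Up α ≃o Up α where
  toFun := Germ.map' (fun x n => f n (x n)) (fun _ _ h => h.mono fun n hn => by simp [hn])
  invFun := Germ.map' (fun x n => (f n).symm (x n)) (fun _ _ h => h.mono fun n hn => by simp [hn])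
  left_inv x := by
    induction x using Germ.inductionOn with
    | h x => exact Germ.coe_eq.2 (Eventually.of_forall fun n => by simp)
  right_inv x := by
    induction x using Germ.inductionOn with
    | h x => exact Germ.coe_eq.2 (Eventually.of_forall fun n => by simp)
  map_rel_iff' := by
    intro x y
    induction x using Germ.inductionOn with
    | h x =>
      induction y using Germ.inductionOn with
      | h y =>
        change ((fun n => f n (x n) : ℕ → α) : Up α) ≤ (fun n => f n (y n) : ℕ → α) ↔ _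
        simp [Germ.coe_le, EventuallyLE]

theorem seqIso_coe (f : ℕ → α ≃o α) (x : ℕ → α) :
    seqIso f (x : Up α) = ((fun n => f n (x n) : ℕ → α) : Up α) := rfl

/-- The extension `f ↦ f*`. -/
noncomputable def star : (α ≃o α) →* (Up α ≃o Up α) where
  toFun f := seqIso (fun _ => f)
  map_one' := by
    ext x
    induction x using Germ.inductionOn with
    | h x => rfl
  map_mul' f g := by
    ext x
    induction x using Germ.inductionOn with
    | h x => rfl

theorem star_coe (f : α ≃o α) (x : ℕ → α) :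
    star f (x : Up α) = ((fun n => f (x n) : ℕ → α) : Up α) := rfl

/-- The diagonal embedding. -/
noncomputable def diag : α ↪o Up α :=
  OrderEmbedding.ofStrictMono (fun t => ((fun _ => t : ℕ → α) : Up α))
    (fun _ _ h => Germ.coe_lt.2 (Eventually.of_forall fun _ => h))

theorem diag_apply (t : α) : diag t = ((fun _ => t : ℕ → α) : Up α) := rfl

theorem star_diag (f : α ≃o α) (t : α) : star f (diag t) = diag (f t) := rfl

theorem star_sup (f g : α ≃o α) : star (supIso f g) = supIso (star f) (star g) := by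
  ext x
  induction x using Germ.inductionOn with
  | h x =>
    rw [supIso_apply, Germ.max_def]
    rfl

theorem seqIso_bdd (f : ℕ → α ≃o α) (a b : ℕ → α)
    (h : ∀ᶠ n in (hyperfilter ℕ : Filter ℕ), ∀ s, (s < a n ∨ b n < s) → f n s = s) (s : Up α)
    (hs : s < (a : Up α) ∨ (b : Up α) < s) : seqIso f s = s := by
  induction s using Germ.inductionOn with
  | h s =>
    rw [seqIso_coe, Germ.coe_eq]
    rcases hs with hs | hs
    · filter_upwards [h, Germ.coe_lt.1 hs] with n h1 h2 using h1 _ (Or.inl h2)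
    · filter_upwards [h, Germ.coe_lt.1 hs] with n h1 h2 using h1 _ (Or.inr h2)

theorem star_bdd (f : α ≃o α) (a b : α) (h : ∀ s, (s < a ∨ b < s) → f s = s) (s : Up α)
    (hs : s < diag a ∨ diag b < s) : star f s = s :=
  seqIso_bdd (fun _ => f) (fun _ => a) (fun _ => b) (Eventually.of_forall fun _ => h) s hs

theorem star_compl (f₁ f₂ f : α ≃o α) (h : Compl f₁ f₂ f) :
    Compl (star f₁) (star f₂) (star f) := by
  intro s
  induction s using Germ.inductionOn with
  | h s =>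
    have := Ultrafilter.eventually_or.1
      (Eventually.of_forall (f := (hyperfilter ℕ : Filter ℕ)) fun n => h (s n))
    simp only [star_coe, Germ.coe_eq]
    rcases this with h' | h'
    · exact Or.inl ⟨h'.mono fun n hn => hn.1, h'.mono fun n hn => hn.2⟩
    · exact Or.inr ⟨h'.mono fun n hn => hn.1, h'.mono fun n hn => hn.2⟩

theorem twoTrans_up (h : TwoTrans α) : TwoTrans (Up α) := by
  intro r₁ r₂ s₁ s₂ hr hs
  induction r₁ using Germ.inductionOn with | h r₁ => ?_
  induction r₂ using Germ.inductionOn with | h r₂ => ?_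
  induction s₁ using Germ.inductionOn with | h s₁ => ?_
  induction s₂ using Germ.inductionOn with | h s₂ => ?_
  have key : ∀ n, ∃ (f : α ≃o α) (a b : α), r₁ n < r₂ n → s₁ n < s₂ n →
      f (r₁ n) = s₁ n ∧ f (r₂ n) = s₂ n ∧ ∀ s, (s < a ∨ b < s) → f s = s := by
    intro n
    by_cases h1 : r₁ n < r₂ n ∧ s₁ n < s₂ n
    · obtain ⟨f, a, b, hf⟩ := h _ _ _ _ h1.1 h1.2
      exact ⟨f, a, b, fun _ _ => hf⟩
    · exact ⟨1, r₁ n, r₁ n, fun h2 h3 => absurd ⟨h2, h3⟩ h1⟩
  choose f a b hf using key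
  have hev : ∀ᶠ n in (hyperfilter ℕ : Filter ℕ),
      f n (r₁ n) = s₁ n ∧ f n (r₂ n) = s₂ n ∧ ∀ s, (s < a n ∨ b n < s) → f n s = s := by
    filter_upwards [Germ.coe_lt.1 hr, Germ.coe_lt.1 hs] with n h1 h2 using hf n h1 h2
  refine ⟨seqIso f, (a : Up α), (b : Up α), ?_, ?_, ?_⟩
  · exact Germ.coe_eq.2 (hev.mono fun n hn => hn.1)
  · exact Germ.coe_eq.2 (hev.mono fun n hn => hn.2.1)
  · exact seqIso_bdd f a b (hev.mono fun n hn => hn.2.2)

theorem star_split (f : α ≃o α) (t : α) (ht : t < f t) :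
    ∃ f₁ f₂ : Up α ≃o Up α, Compl f₁ f₂ (star f) ∧ (∃ p, f₁ p ≠ p) ∧ ∃ q, f₂ q ≠ q := by
  have hmono : StrictMono (fun k : ℕ => (f : α → α)^[k] t) := by
    apply strictMono_nat_of_lt_succ
    intro k
    rw [Function.iterate_succ_apply]
    exact (f.strictMono.iterate k) ht
  obtain ⟨f₁, f₂, h1, h2⟩ := exists_compl (star f) {s | ∃ k : ℕ, s ≤ diag ((f : α → α)^[k] t)}
    (fun x y hxy ⟨k, hk⟩ => ⟨k, hxy.trans hk⟩) (by
      intro s
      constructor
      · rintro ⟨k, hk⟩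
        refine ⟨k, ?_⟩
        rw [← (star f).le_iff_le, star_diag]
        refine hk.trans ((diag (α := α)).monotone ?_)
        rw [← Function.iterate_succ_apply' f]
        exact hmono.monotone (Nat.le_succ k)
      · rintro ⟨k, hk⟩
        refine ⟨k + 1, ?_⟩
        rw [Function.iterate_succ_apply', ← star_diag]
        exact (star f).monotone hk)
  refine ⟨f₁, f₂, ?_, ⟨diag t, ?_⟩, ⟨((fun n => (f : α → α)^[n] t : ℕ → α) : Up α), ?_⟩⟩
  · intro s
    by_cases hs : s ∈ {s | ∃ k : ℕ, s ≤ diag ((f : α → α)^[k] t)}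
    · exact Or.inr (h1 s hs)
    · exact Or.inl (h2 s hs)
  · rw [(h1 (diag t) ⟨0, le_rfl⟩).1, star_diag]
    exact (diag.strictMono ht).ne'
  · rw [(h2 _ _).2]
    · apply ne_of_gt
      rw [star_coe, Germ.coe_lt]
      refine Eventually.of_forall fun n => ?_
      rw [← Function.iterate_succ_apply' f]
      exact hmono (Nat.lt_succ_self n)
    · rintro ⟨k, hk⟩
      refine absurd hk (not_le.2 ?_)
      rw [diag_apply, Germ.coe_lt]
      exact Nat.hyperfilter_le_atTop ((eventually_gt_atTop k).mono fun n hn => hmono hn)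

end Ultra

theorem exists_seq {β : ℕ → Type} (h0 : ∀ n, Nonempty (β n)) (s : ∀ n, β n → β (n + 1))
    (n : ℕ) (t : β n) : ∃ x : ∀ m, β m, x n = t ∧ ∀ m, n ≤ m → x (m + 1) = s m (x m) := by
  classical
  let x : ∀ m, β m := fun m => Nat.rec (motive := β)
    (if h : n = 0 then cast (congrArg β h) t else Classical.choice (h0 0))
    (fun k y => if h : n = k + 1 then cast (congrArg β h) t else s k y) m
  refine ⟨x, ?_, ?_⟩
  · cases n with
    | zero => simp [x]
    | succ k => simp [x]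
  · intro m hm
    have : n ≠ m + 1 := by omega
    simp [x, this]

section Limit

variable {T : ℕ → Type} [∀ n, LinearOrder (T n)]
  (d : ∀ n, T n ↪o T (n + 1)) (st : ∀ n, (T n ≃o T n) →* (T (n + 1) ≃o T (n + 1)))

/-- Eventually coherent sequences of points. -/
def Pt : Type := {x : ∀ n, T n // ∀ᶠ n in atTop, x (n + 1) = d n (x n)}

instance : Preorder (Pt d) where
  le x y := ∀ᶠ n in atTop, x.1 n ≤ y.1 n
  le_refl _ := Eventually.of_forall fun _ => le_rfl
  le_trans _ _ _ h h' := by filter_upwards [h, h'] with n h1 h2 using h1.trans h2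

theorem pt_le (x y : Pt d) : x ≤ y ↔ ∀ᶠ n in atTop, x.1 n ≤ y.1 n := Iff.rfl

theorem ev_of_step {P Q : ℕ → Prop} (hQ : ∀ᶠ n in atTop, Q n)
    (h : ∀ n, Q n → P n → P (n + 1)) (hP : ∃ᶠ n in atTop, P n) : ∀ᶠ n in atTop, P n := by
  obtain ⟨N, hN⟩ := eventually_atTop.1 hQ
  obtain ⟨M, hM, hPM⟩ := frequently_atTop.1 hP N
  refine eventually_atTop.2 ⟨M, fun n hn => ?_⟩
  induction n, hn using Nat.le_induction with
  | base => exact hPM
  | succ k hk ih => exact h k (hN k (le_trans hM hk)) ih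

instance : @Std.Total (Pt d) (· ≤ ·) where
  total x y := by
    by_cases h : ∀ᶠ n in atTop, x.1 n ≤ y.1 n
    · exact Or.inl h
    · right
      refine ev_of_step (x.2.and y.2) ?_ ?_
      · rintro n ⟨h1, h2⟩ h3
        rw [h1, h2]; exact (d n).monotone h3
      · exact (not_eventually.1 h).mono fun n hn => (not_le.1 hn).le

/-- The direct limit. -/
def Lim : Type := Antisymmetrization (Pt d) (· ≤ ·)

open Classical in
noncomputable instance : LinearOrder (Lim d) :=
  inferInstanceAs (LinearOrder (Antisymmetrization (Pt d) (· ≤ ·)))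

/-- The class of a coherent sequence. -/
def mk (x : Pt d) : Lim d := toAntisymmetrization (· ≤ ·) x

theorem mk_surj (z : Lim d) : ∃ x, mk d x = z := Quotient.exists_rep z

theorem mk_le (x y : Pt d) : mk d x ≤ mk d y ↔ ∀ᶠ n in atTop, x.1 n ≤ y.1 n :=
  toAntisymmetrization_le_toAntisymmetrization_iff

theorem mk_eq (x y : Pt d) : mk d x = mk d y ↔ ∀ᶠ n in atTop, x.1 n = y.1 n := by
  rw [le_antisymm_iff, mk_le, mk_le, ← eventually_and]
  simp only [← le_antisymm_iff]

theorem mk_lt (x y : Pt d) : mk d x < mk d y ↔ ∀ᶠ n in atTop, x.1 n < y.1 n := by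
  rw [← not_le, mk_le]
  constructor
  · intro h
    refine ev_of_step (x.2.and y.2) ?_ ?_
    · rintro n ⟨h1, h2⟩ h3
      rw [h1, h2]; exact (d n).strictMono h3
    · exact (not_eventually.1 h).mono fun n hn => not_le.1 hn
  · intro h h'
    obtain ⟨n, h1, h2⟩ := (h.and h').exists
    exact absurd h1 (not_lt.2 h2)

/-- `g` is the limit of the sequence `F`. -/
def IsLim (F : ∀ n, T n ≃o T n) (g : Lim d ≃o Lim d) : Prop :=
  ∀ x y : Pt d, (∀ᶠ n in atTop, y.1 n = F n (x.1 n)) → g (mk d x) = mk d y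

/-- Eventually coherent sequences of automorphisms. -/
def CohF (F : ∀ n, T n ≃o T n) : Prop := ∀ᶠ n in atTop, F (n + 1) = st n (F n)

variable (hsd : ∀ n f t, st n f (d n t) = d n (f t))

include hsd in
theorem coh_apply {F : ∀ n, T n ≃o T n} (hF : CohF st F) (x : Pt d) :
    ∀ᶠ n in atTop, F (n + 1) (x.1 (n + 1)) = d n (F n (x.1 n)) := by
  filter_upwards [hF, x.2] with n h1 h2
  rw [h1, h2, hsd]

/-- Applying a coherent sequence of automorphisms to a point. -/
def app {F : ∀ n, T n ≃o T n} (hF : CohF st F) (x : Pt d) : Pt d :=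
  ⟨fun n => F n (x.1 n), coh_apply d st hsd hF x⟩

theorem cohF_inv {F : ∀ n, T n ≃o T n} (hF : CohF st F) : CohF st (fun n => (F n)⁻¹) :=
  hF.mono fun n hn => by simp only [hn, map_inv]

theorem cohF_mul {F G : ∀ n, T n ≃o T n} (hF : CohF st F) (hG : CohF st G) :
    CohF st (fun n => F n * G n) := by
  filter_upwards [hF, hG] with n h1 h2
  simp only [h1, h2, map_mul]

include hsd in
theorem exists_lim {F : ∀ n, T n ≃o T n} (hF : CohF st F) : ∃ g, IsLim d F g := by
  let g0 : Lim d → Lim d := fun z => mk d (app d st hsd hF (Classical.choose (mk_surj d z)))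
  have hg0 : ∀ x, g0 (mk d x) = mk d (app d st hsd hF x) := by
    intro x
    have := Classical.choose_spec (mk_surj d (mk d x))
    rw [mk_eq] at this ⊢
    exact this.mono fun n hn => by simp only [app, hn]
  have hmono : StrictMono g0 := by
    intro z w h
    obtain ⟨x, rfl⟩ := mk_surj d z
    obtain ⟨y, rfl⟩ := mk_surj d w
    rw [hg0, hg0, mk_lt]
    exact ((mk_lt d x y).1 h).mono fun n hn => (F n).strictMono hn
  have hsurj : Function.Surjective g0 := by
    intro w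
    obtain ⟨y, rfl⟩ := mk_surj d w
    refine ⟨mk d (app d st hsd (cohF_inv st hF) y), ?_⟩
    rw [hg0, mk_eq]
    exact Eventually.of_forall fun n => (F n).apply_symm_apply _
  refine ⟨hmono.orderIsoOfSurjective _ hsurj, fun x y h => ?_⟩
  change g0 (mk d x) = _
  rw [hg0, mk_eq]
  exact h.mono fun n hn => hn.symm

theorem isLim_app {F : ∀ n, T n ≃o T n} (hF : CohF st F) {g : Lim d ≃o Lim d}
    (hg : IsLim d F g) (x : Pt d) : g (mk d x) = mk d (app d st hsd hF x) :=
  hg _ _ (Eventually.of_forall fun _ => rfl)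

/-- The group. -/
def grp : Subgroup (Lim d ≃o Lim d) where
  carrier := {g | (∃ F, CohF st F ∧ IsLim d F g) ∧
    ∀ z : Lim d, ∃ a b, a ≤ z ∧ z ≤ b ∧ ∀ s, (s < a ∨ b < s) → g s = s}
  one_mem' := by
    refine ⟨⟨fun _ => 1, Eventually.of_forall fun n => by simp, ?_⟩,
      fun z => ⟨z, z, le_rfl, le_rfl, fun _ _ => rfl⟩⟩
    intro x y h
    change mk d x = mk d y
    rw [mk_eq]
    exact h.mono fun n hn => hn.symm
  mul_mem' := by
    rintro f g ⟨⟨F, hF, hf⟩, hfb⟩ ⟨⟨G, hG, hg⟩, hgb⟩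
    refine ⟨⟨_, cohF_mul st hF hG, ?_⟩, ?_⟩
    · intro x y h
      change f (g (mk d x)) = _
      rw [isLim_app d st hsd hG hg]
      exact hf _ _ h
    · intro z
      obtain ⟨a, b, ha, hb, h⟩ := hfb z
      obtain ⟨a', b', ha', hb', h'⟩ := hgb z
      refine ⟨min a a', max b b', (min_le_left _ _).trans ha, hb.trans (le_max_left _ _), ?_⟩
      intro s hs
      change f (g s) = s
      rcases hs with hs | hs
      · rw [lt_min_iff] at hs
        rw [h' s (Or.inl hs.2), h s (Or.inl hs.1)]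
      · rw [max_lt_iff] at hs
        rw [h' s (Or.inr hs.2), h s (Or.inr hs.1)]
  inv_mem' := by
    rintro f ⟨⟨F, hF, hf⟩, hfb⟩
    refine ⟨⟨_, cohF_inv st hF, ?_⟩, ?_⟩
    · intro x y h
      change f.symm (mk d x) = _
      rw [OrderIso.symm_apply_eq]
      symm
      apply hf
      exact h.mono fun n hn => by rw [hn]; exact ((F n).apply_symm_apply _).symm
    · intro z
      obtain ⟨a, b, ha, hb, h⟩ := hfb z
      refine ⟨a, b, ha, hb, fun s hs => ?_⟩
      change f.symm s = s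
      rw [OrderIso.symm_apply_eq, h s hs]

theorem mem_grp_of (g : Lim d ≃o Lim d) {F : ∀ n, T n ≃o T n} (hF : CohF st F)
    (hg : IsLim d F g) (a b : Lim d) (h : ∀ s, (s < a ∨ b < s) → g s = s) :
    g ∈ grp d st hsd := by
  refine ⟨⟨F, hF, hg⟩, fun z => ⟨min a z, max b z, min_le_right _ _, le_max_right _ _, ?_⟩⟩
  intro s hs
  rcases hs with hs | hs
  · exact h s (Or.inl (hs.trans_le (min_le_left _ _)))
  · exact h s (Or.inr ((le_max_left _ _).trans_lt hs))

theorem sup_mem (hsup : ∀ n f g, st n (supIso f g) = supIso (st n f) (st n g))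
    {f g : Lim d ≃o Lim d} (hf : f ∈ grp d st hsd) (hg : g ∈ grp d st hsd) :
    supIso f g ∈ grp d st hsd := by
  obtain ⟨⟨F, hF, hf⟩, hfb⟩ := hf
  obtain ⟨⟨G, hG, hg⟩, hgb⟩ := hg
  refine ⟨⟨fun n => supIso (F n) (G n), ?_, ?_⟩, ?_⟩
  · filter_upwards [hF, hG] with n h1 h2
    rw [h1, h2, hsup]
  · intro x y h
    rw [supIso_apply, isLim_app d st hsd hF hf, isLim_app d st hsd hG hg]
    rcases le_total (mk d (app d st hsd hF x)) (mk d (app d st hsd hG x)) with h' | h'
    · rw [max_eq_right h', mk_eq]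
      filter_upwards [h, (mk_le d _ _).1 h'] with n h1 h2
      rw [h1, supIso_apply]
      exact (max_eq_right h2).symm
    · rw [max_eq_left h', mk_eq]
      filter_upwards [h, (mk_le d _ _).1 h'] with n h1 h2
      rw [h1, supIso_apply]
      exact (max_eq_left h2).symm
  · intro z
    obtain ⟨a, b, ha, hb, h⟩ := hfb z
    obtain ⟨a', b', ha', hb', h'⟩ := hgb z
    refine ⟨min a a', max b b', (min_le_left _ _).trans ha, hb.trans (le_max_left _ _), ?_⟩
    intro s hs
    rw [supIso_apply]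
    rcases hs with hs | hs
    · rw [lt_min_iff] at hs
      rw [h' s (Or.inl hs.2), h s (Or.inl hs.1), max_self]
    · rw [max_lt_iff] at hs
      rw [h' s (Or.inr hs.2), h s (Or.inr hs.1), max_self]

theorem exists_pt (h0 : ∀ n, Nonempty (T n)) (n : ℕ) (t : T n) :
    ∃ x : Pt d, x.1 n = t ∧ ∀ m, n ≤ m → x.1 (m + 1) = d m (x.1 m) := by
  obtain ⟨x, h1, h2⟩ := exists_seq h0 (fun m => d m) n t
  exact ⟨⟨x, eventually_atTop.2 ⟨n, h2⟩⟩, h1, h2⟩

theorem exists_aut (n : ℕ) (f : T n ≃o T n) :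
    ∃ F : ∀ m, T m ≃o T m, F n = f ∧ (∀ m, n ≤ m → F (m + 1) = st m (F m)) ∧ CohF st F := by
  obtain ⟨F, h1, h2⟩ := exists_seq (β := fun m => T m ≃o T m) (fun _ => ⟨1⟩)
    (fun m => st m) n f
  exact ⟨F, h1, h2, eventually_atTop.2 ⟨n, h2⟩⟩

theorem ev_from {P : ℕ → Prop} (N : ℕ) (h0 : P N) (h : ∀ n, N ≤ n → P n → P (n + 1)) :
    ∀ᶠ n in atTop, P n := by
  refine eventually_atTop.2 ⟨N, fun n hn => ?_⟩
  induction n, hn using Nat.le_induction with
  | base => exact h0
  | succ k hk ih => exact h k hk ih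

theorem grp_twoTrans (h0 : ∀ n, Nonempty (T n)) (htr : ∀ n, TwoTrans (T n))
    (hbd : ∀ n (f : T n ≃o T n) (a b : T n), (∀ s, (s < a ∨ b < s) → f s = s) →
      ∀ s, (s < d n a ∨ d n b < s) → st n f s = s)
    (r₁ r₂ s₁ s₂ : Lim d) (hr : r₁ < r₂) (hs : s₁ < s₂) :
    ∃ f ∈ grp d st hsd, f r₁ = s₁ ∧ f r₂ = s₂ := by
  obtain ⟨r₁, rfl⟩ := mk_surj d r₁
  obtain ⟨r₂, rfl⟩ := mk_surj d r₂
  obtain ⟨s₁, rfl⟩ := mk_surj d s₁
  obtain ⟨s₂, rfl⟩ := mk_surj d s₂
  obtain ⟨N, hN⟩ := eventually_atTop.1 ((((mk_lt d _ _).1 hr).and ((mk_lt d _ _).1 hs)).and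
    ((r₁.2.and r₂.2).and (s₁.2.and s₂.2)))
  obtain ⟨f, a, b, h1, h2, h3⟩ := htr N _ _ _ _ (hN N le_rfl).1.1 (hN N le_rfl).1.2
  obtain ⟨F, hF0, hF1, hF⟩ := exists_aut st N f
  obtain ⟨A, hA0, hA⟩ := exists_pt d h0 N a
  obtain ⟨B, hB0, hB⟩ := exists_pt d h0 N b
  obtain ⟨g, hg⟩ := exists_lim d st hsd hF
  have key : ∀ᶠ n in atTop, F n (r₁.1 n) = s₁.1 n ∧ F n (r₂.1 n) = s₂.1 n ∧
      ∀ s, (s < A.1 n ∨ B.1 n < s) → F n s = s := by
    refine ev_from N ?_ ?_
    · rw [hF0, hA0, hB0]; exact ⟨h1, h2, h3⟩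
    · rintro n hn ⟨e1, e2, e3⟩
      obtain ⟨-, ⟨c1, c2⟩, c3, c4⟩ := hN n hn
      rw [hF1 n hn, hA n hn, hB n hn, c1, c2, c3, c4, hsd, hsd, e1, e2]
      exact ⟨rfl, rfl, hbd n _ _ _ e3⟩
  refine ⟨g, mem_grp_of d st hsd g hF hg (mk d A) (mk d B) ?_,
    hg _ _ (key.mono fun n hn => hn.1.symm), hg _ _ (key.mono fun n hn => hn.2.1.symm)⟩
  intro s hs
  obtain ⟨s, rfl⟩ := mk_surj d s
  apply hg
  rcases hs with hs | hs
  · filter_upwards [key, (mk_lt d _ _).1 hs] with n e1 e2 using (e1.2.2 _ (Or.inl e2)).symm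
  · filter_upwards [key, (mk_lt d _ _).1 hs] with n e1 e2 using (e1.2.2 _ (Or.inr e2)).symm

include hsd in
theorem lim_ne_one (h0 : ∀ n, Nonempty (T n)) {F : ∀ n, T n ≃o T n} (N : ℕ)
    (hF : ∀ m, N ≤ m → F (m + 1) = st m (F m)) {g : Lim d ≃o Lim d} (hg : IsLim d F g)
    (p : T N) (hp : F N p ≠ p) : g ≠ 1 := by
  intro h1
  obtain ⟨P, hP0, hP⟩ := exists_pt d h0 N p
  have hF' : CohF st F := eventually_atTop.2 ⟨N, hF⟩
  have e1 := isLim_app d st hsd hF' hg P
  rw [h1] at e1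
  change mk d P = _ at e1
  rw [mk_eq] at e1
  have e2 : ∀ᶠ n in atTop, F n (P.1 n) ≠ P.1 n := by
    refine ev_from N (by rw [hP0]; exact hp) ?_
    intro n hn e
    rw [hF n hn, hP n hn, hsd]
    exact fun h => e ((d n).injective h)
  obtain ⟨n, a1, a2⟩ := (e1.and e2).exists
  exact a2 a1.symm

theorem grp_split (h0 : ∀ n, Nonempty (T n))
    (hco : ∀ n f₁ f₂ f, Compl f₁ f₂ f → Compl (st n f₁) (st n f₂) (st n f))
    (hsp : ∀ n (f : T n ≃o T n) (t : T n), t < f t →
      ∃ f₁ f₂, Compl f₁ f₂ (st n f) ∧ (∃ p, f₁ p ≠ p) ∧ ∃ q, f₂ q ≠ q)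
    (g : Lim d ≃o Lim d) (hg : g ∈ grp d st hsd) (hpos : ∀ t, t ≤ g t) (hne : g ≠ 1) :
    ∃ g₁ ∈ grp d st hsd, ∃ g₂ ∈ grp d st hsd, g₁ ≠ 1 ∧ g₂ ≠ 1 ∧ Compl g₁ g₂ g := by
  obtain ⟨⟨F, hF, hg⟩, hb⟩ := hg
  obtain ⟨z, hz⟩ : ∃ z, g z ≠ z := by
    by_contra h
    push Not at h
    exact hne (by ext z; exact h z)
  obtain ⟨x, rfl⟩ := mk_surj d z
  have hlt : mk d x < g (mk d x) := lt_of_le_of_ne (hpos _) hz.symm
  rw [isLim_app d st hsd hF hg, mk_lt] at hlt
  obtain ⟨N, hN⟩ := eventually_atTop.1 (hlt.and hF)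
  obtain ⟨f₁, f₂, hc, ⟨p, hp⟩, ⟨q, hq⟩⟩ := hsp N (F N) (x.1 N) (hN N le_rfl).1
  obtain ⟨F₁, a0, a1, a2⟩ := exists_aut st (N + 1) f₁
  obtain ⟨F₂, b0, b1, b2⟩ := exists_aut st (N + 1) f₂
  obtain ⟨g₁, hg₁⟩ := exists_lim d st hsd a2
  obtain ⟨g₂, hg₂⟩ := exists_lim d st hsd b2
  have key : ∀ᶠ n in atTop, Compl (F₁ n) (F₂ n) (F n) := by
    refine ev_from (N + 1) ?_ ?_
    · rw [a0, b0, (hN N le_rfl).2]; exact hc
    · intro n hn e
      rw [a1 n hn, b1 n hn, (hN n (by omega)).2]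
      exact hco n _ _ _ e
  have hcompl : Compl g₁ g₂ g := by
    intro s
    obtain ⟨y, rfl⟩ := mk_surj d s
    rw [isLim_app d st hsd hF hg, isLim_app d st hsd a2 hg₁, isLim_app d st hsd b2 hg₂]
    simp only [mk_eq, ← eventually_and]
    have hfr := (key.mono fun n hn => hn (y.1 n)).frequently
    have hQ := ((y.2.and (coh_apply d st hsd hF y)).and
      ((coh_apply d st hsd a2 y).and (coh_apply d st hsd b2 y)))
    rcases frequently_or_distrib.1 hfr with h | h
    · left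
      refine ev_of_step (P := fun n => F₁ n (y.1 n) = y.1 n ∧ F₂ n (y.1 n) = F n (y.1 n)) hQ ?_ h
      rintro n ⟨⟨c1, c2⟩, c3, c4⟩ ⟨e1, e2⟩
      rw [c3, c4, c2, c1, e1, e2]
      exact ⟨rfl, rfl⟩
    · right
      refine ev_of_step (P := fun n => F₁ n (y.1 n) = F n (y.1 n) ∧ F₂ n (y.1 n) = y.1 n) hQ ?_ h
      rintro n ⟨⟨c1, c2⟩, c3, c4⟩ ⟨e1, e2⟩
      rw [c3, c4, c2, c1, e1, e2]
      exact ⟨rfl, rfl⟩
  obtain ⟨a, b, -, -, hab⟩ := hb (mk d x)
  refine ⟨g₁, mem_grp_of d st hsd g₁ a2 hg₁ a b ?_, g₂, mem_grp_of d st hsd g₂ b2 hg₂ a b ?_,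
    lim_ne_one d st hsd h0 (N + 1) a1 hg₁ p (by rw [a0]; exact hp),
    lim_ne_one d st hsd h0 (N + 1) b1 hg₂ q (by rw [b0]; exact hq), hcompl⟩
  · intro s hs
    rcases hcompl s with h | h
    · exact h.1
    · rw [h.1, hab s hs]
  · intro s hs
    rcases hcompl s with h | h
    · rw [h.2, hab s hs]
    · exact h.2

end Limit

/-- The tower of iterated ultrapowers of `ℚ`. -/
noncomputable def tower : ℕ → LinOrd.{0}
  | 0 => LinOrd.of ℚ
  | n + 1 => LinOrd.of (Up (tower n))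

theorem tower_nonempty : ∀ n, Nonempty (tower n)
  | 0 => ⟨(0 : ℚ)⟩
  | n + 1 => ⟨diag (Classical.choice (tower_nonempty n))⟩

theorem tower_twoTrans : ∀ n, TwoTrans (tower n)
  | 0 => twoTrans_rat
  | n + 1 => twoTrans_up (tower_twoTrans n)

theorem result :
    ∃ (T : Type) (_ : LinearOrder T) (L : Subgroup (T ≃o T)),
      (∃ a b c : T, a ≠ b ∧ a ≠ c ∧ b ≠ c) ∧
      (∀ f ∈ L, ∀ g ∈ L, (∃ h ∈ L, ∀ t, h t = max (f t) (g t)) ∧
        (∃ h ∈ L, ∀ t, h t = min (f t) (g t))) ∧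
      (∀ r₁ r₂ s₁ s₂ : T, r₁ < r₂ → s₁ < s₂ → ∃ f ∈ L, f r₁ = s₁ ∧ f r₂ = s₂) ∧
      (∀ f ∈ L, ∃ t₁ t₂ : T, ∀ s, (s < t₁ ∨ t₂ < s) → f s = s) ∧
      (∀ f ∈ L, (∀ t, t ≤ f t) → f ≠ 1 →
        ∃ f₁ ∈ L, ∃ f₂ ∈ L, f₁ ≠ 1 ∧ f₂ ≠ 1 ∧
          (∀ t, min (f₁ t) (f₂ t) = t) ∧ (∀ t, max (f₁ t) (f₂ t) = f t)) := by
  let d : ∀ n, tower n ↪o tower (n + 1) := fun n => diag (α := tower n)
  let st : ∀ n, (tower n ≃o tower n) →* (tower (n + 1) ≃o tower (n + 1)) :=
    fun n => star (α := tower n)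
  have hsd : ∀ n f t, st n f (d n t) = d n (f t) := fun n f t => star_diag f t
  have hlt : ∀ a b : tower 0, a < b → ∀ x y : Pt d,
      (x.1 0 = a ∧ ∀ m, 0 ≤ m → x.1 (m + 1) = d m (x.1 m)) →
      (y.1 0 = b ∧ ∀ m, 0 ≤ m → y.1 (m + 1) = d m (y.1 m)) → mk d x < mk d y := by
    intro a b hab x y hx hy
    rw [mk_lt]
    refine ev_from 0 (by rw [hx.1, hy.1]; exact hab) ?_
    intro n hn e
    rw [hx.2 n hn, hy.2 n hn]
    exact (d n).strictMono e
  obtain ⟨x, hx⟩ := exists_pt d tower_nonempty 0 (0 : ℚ)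
  obtain ⟨y, hy⟩ := exists_pt d tower_nonempty 0 (1 : ℚ)
  obtain ⟨z, hz⟩ := exists_pt d tower_nonempty 0 (2 : ℚ)
  have hxy : mk d x < mk d y := hlt _ _ (zero_lt_one (α := ℚ)) x y hx hy
  have hyz : mk d y < mk d z := hlt _ _ (one_lt_two (α := ℚ)) y z hy hz
  have hsup : ∀ n f g, st n (supIso f g) = supIso (st n f) (st n g) := fun n f g => star_sup f g
  refine ⟨Lim d, inferInstance, grp d st hsd,
    ⟨mk d x, mk d y, mk d z, hxy.ne, (hxy.trans hyz).ne, hyz.ne⟩, ?_, ?_, ?_, ?_⟩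
  · intro f hf g hg
    exact ⟨⟨_, sup_mem d st hsd hsup hf hg, supIso_apply f g⟩,
      ⟨_, inv_mem (sup_mem d st hsd hsup (inv_mem hf) (inv_mem hg)), infIso_apply f g⟩⟩
  · exact grp_twoTrans d st hsd tower_nonempty tower_twoTrans
      (fun n f a b h s hs => star_bdd f a b h s hs)
  · intro f hf
    obtain ⟨a, b, -, -, h⟩ := hf.2 (mk d x)
    exact ⟨a, b, h⟩
  · intro f hf hpos hne
    obtain ⟨f₁, h₁, f₂, h₂, n₁, n₂, hc⟩ := grp_split d st hsd tower_nonempty
      (fun n f₁ f₂ f h => star_compl f₁ f₂ f h) (fun n f t h => star_split f t h) f hf hpos hne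
    refine ⟨f₁, h₁, f₂, h₂, n₁, n₂, fun t => ?_, fun t => ?_⟩
    · rcases hc t with h | h
      · rw [h.1, h.2]; exact min_eq_left (hpos t)
      · rw [h.1, h.2]; exact min_eq_right (hpos t)
    · rcases hc t with h | h
      · rw [h.1, h.2]; exact max_eq_right (hpos t)
      · rw [h.1, h.2]; exact max_eq_left (hpos t)

end Pool.Agent.Results.MP_31a5b6_al.NoPrime
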